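import Mathlib
import Pool.Agent.R489.Bor.Main

set_option autoImplicit false

namespace Pool.Agent.Results.MP_12cbfc_co

open Pool.Agent.R489.Bor

variable {α : Type*} {β : Type*}

/-- The distance `d(B, B') = |B △ B'|`. -/
noncomputable def baseDist (B B' : Set α) : ℕ := (symmDiff B B').ncard

/-- The diameter `max {d(B, B') : B, B' ∈ F}` of a family `F`. -/
noncomputable def diam (F : Set (Set α)) : ℕ :=
  sSup {n | ∃ B ∈ F, ∃ B' ∈ F, n = baseDist B B'}

/-- The set of bases of a matroid. -/
def bases (M : Matroid α) : Set (Set α) := {B | M.IsBase B}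

/-- `P` is a partition of the set of bases of `M` into (nonempty) parts, each of diameter
strictly less than the diameter of the set of all bases. -/
structure IsBorsukPartition (M : Matroid α) (P : Set (Set (Set α))) : Prop where
  nonempty : ∅ ∉ P
  disjoint : ∀ F ∈ P, ∀ G ∈ P, F ≠ G → Disjoint F G
  cover : ⋃₀ P = bases M
  small : ∀ F ∈ P, diam F < diam (bases M)

/-- The Borsuk number `f(M)`: the least number of parts of a partition of the bases of `M` into
parts of diameter strictly less than the diameter of the set of all bases; it is `⊤` if there is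
no such partition. -/
noncomputable def borsukNumber (M : Matroid α) : ℕ∞ :=
  ⨅ (P : Set (Set (Set α))) (_ : IsBorsukPartition M P), P.encard

theorem diam_spec (M : Matroid α) [M.Finite] {F : Set (Set α)} (hF : F ⊆ bases M)
    (hne : F.Nonempty) :
    (∀ B ∈ F, ∀ B' ∈ F, baseDist B B' ≤ diam F) ∧ ∃ B ∈ F, ∃ B' ∈ F, baseDist B B' = diam F := by
  have hbdd : BddAbove {n | ∃ B ∈ F, ∃ B' ∈ F, n = baseDist B B'} := by
    refine ⟨M.E.ncard, ?_⟩
    rintro n ⟨B, hB, B', hB', rfl⟩
    apply Set.ncard_le_ncard _ M.ground_finite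
    intro x hx
    rcases hx with ⟨h1, -⟩ | ⟨h1, -⟩
    · exact (hF hB).subset_ground h1
    · exact (hF hB').subset_ground h1
  constructor
  · intro B hB B' hB'
    exact le_csSup hbdd ⟨B, hB, B', hB', rfl⟩
  · obtain ⟨B0, hB0⟩ := hne
    obtain ⟨B, hB, B', hB', h⟩ := Nat.sSup_mem (s := {n | ∃ B ∈ F, ∃ B' ∈ F, n = baseDist B B'})
      ⟨_, B0, hB0, B0, hB0, rfl⟩ hbdd
    exact ⟨B, hB, B', hB', h.symm⟩

/-- colourings of the bases -/
def Col (M : Matroid α) (t : ℕ) : Prop :=
  ∃ c : Set α → ℕ, (∀ B, M.IsBase B → c B < t) ∧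
    ∀ B B', M.IsBase B → M.IsBase B' → baseDist B B' = diam (bases M) → c B ≠ c B'

theorem borsuk_le_iff (M : Matroid α) [M.Finite] (t : ℕ) : borsukNumber M ≤ t ↔ Col M t := by
  classical
  constructor
  · intro h
    have h1 : borsukNumber M < (t : ℕ∞) + 1 := by
      rw [ENat.lt_add_one_iff (by simp)]; exact h
    unfold borsukNumber at h1
    simp only [iInf_lt_iff] at h1
    obtain ⟨P, hP, hPt⟩ := h1
    rw [ENat.lt_add_one_iff (by simp)] at hPt
    have hPf : P.Finite := by
      apply Set.finite_of_encard_le_coe hPt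
    have hIio : (Set.Iio t).encard = t := by
      rw [← Finset.coe_Iio, Set.encard_coe_eq_coe_finsetCard, Nat.card_Iio]
    obtain ⟨f, hf1, hf2⟩ := hPf.exists_injOn_of_encard_le (t := Set.Iio t) (by rw [hIio]; exact hPt)
    have hex : ∀ B, M.IsBase B → ∃ F ∈ P, B ∈ F := by
      intro B hB
      have : B ∈ ⋃₀ P := by rw [hP.cover]; exact hB
      exact this
    refine ⟨fun B => if h : ∃ F ∈ P, B ∈ F then f h.choose else 0, ?_, ?_⟩
    · intro B hB
      simp only [hex B hB, dif_pos]
      exact hf1 (hex B hB).choose_spec.1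
    · intro B B' hB hB' hd he
      simp only [hex B hB, hex B' hB', dif_pos] at he
      have e1 := hf2 (hex B hB).choose_spec.1 (hex B' hB').choose_spec.1 he
      have e2 := (hex B hB).choose_spec.2
      have e3 := (hex B' hB').choose_spec.2
      have e4 := (hex B hB).choose_spec.1
      rw [← e1] at e3
      have hsub : (hex B hB).choose ⊆ bases M := by
        rw [← hP.cover]
        exact Set.subset_sUnion_of_mem e4
      have e5 := (diam_spec M hsub ⟨B, e2⟩).1 B e2 B' e3
      have e6 := hP.small _ e4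
      omega
  · rintro ⟨c, hc1, hc2⟩
    set P : Set (Set (Set α)) := ((fun i => {B | M.IsBase B ∧ c B = i}) '' (Set.Iio t)) \ {∅} with hPdef
    have hP : IsBorsukPartition M P := by
      refine ⟨by simp [hPdef], ?_, ?_, ?_⟩
      · rintro F ⟨⟨i, -, rfl⟩, -⟩ G ⟨⟨j, -, rfl⟩, -⟩ hne
        rw [Set.disjoint_left]
        rintro B ⟨-, h1⟩ ⟨-, h2⟩
        apply hne
        rw [← h1, ← h2]
      · ext B
        constructor
        · rintro ⟨F, ⟨⟨i, -, rfl⟩, -⟩, hB⟩
          exact hB.1
        · intro hB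
          refine ⟨{B' | M.IsBase B' ∧ c B' = c B}, ⟨⟨c B, hc1 B hB, rfl⟩, ?_⟩, ⟨hB, rfl⟩⟩
          intro h0
          have : B ∈ ({B' | M.IsBase B' ∧ c B' = c B} : Set (Set α)) := ⟨hB, rfl⟩
          rw [h0] at this
          exact this
      · rintro F ⟨⟨i, -, rfl⟩, hF⟩
        have hne : ({B | M.IsBase B ∧ c B = i} : Set (Set α)).Nonempty := by
          rw [Set.nonempty_iff_ne_empty]
          exact hF
        have hsub : ({B | M.IsBase B ∧ c B = i} : Set (Set α)) ⊆ bases M := fun B hB => hB.1
        obtain ⟨B, hB, B', hB', hd⟩ := (diam_spec M hsub hne).2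
        have h1 := (diam_spec M (F := bases M) (le_refl _) ⟨B, hB.1⟩).1 B hB.1 B' hB'.1
        have h2 := hc2 B B' hB.1 hB'.1
        have h3 : c B = c B' := by rw [hB.2, hB'.2]
        show diam {B | M.IsBase B ∧ c B = i} < _
        rw [← hd]
        apply lt_of_le_of_ne h1
        intro he
        exact h2 he h3
    have hcard : P.encard ≤ t := by
      refine le_trans (Set.encard_le_encard Set.sdiff_subset) ?_
      refine le_trans (Set.encard_image_le _ _) ?_
      rw [← Finset.coe_Iio, Set.encard_coe_eq_coe_finsetCard, Nat.card_Iio]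
    refine le_trans ?_ hcard
    exact iInf₂_le P hP

section transfer

/-- the set attached to a finset of elements of the ground set -/
def up (M : Matroid α) (A : Finset ↥M.E) : Set α := Subtype.val '' (A : Set ↥M.E)

theorem up_finite (M : Matroid α) (A : Finset ↥M.E) : (up M A).Finite :=
  A.finite_toSet.image _

theorem up_encard (M : Matroid α) (A : Finset ↥M.E) : (up M A).encard = A.card := by
  unfold up
  rw [Subtype.val_injective.encard_image, Set.encard_coe_eq_coe_finsetCard]

/-- the rank function on finsets -/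
noncomputable def rk (M : Matroid α) (A : Finset ↥M.E) : ℕ := (M.eRk (up M A)).toNat

theorem rk_coe (M : Matroid α) (A : Finset ↥M.E) : ((rk M A : ℕ) : ℕ∞) = M.eRk (up M A) := by
  unfold rk
  apply ENat.natCast_toNat
  have h1 := M.eRk_le_encard (up M A)
  rw [up_encard] at h1
  exact ne_top_of_le_ne_top (by simp) h1

variable [DecidableEq α]

theorem rk_isRank (M : Matroid α) : IsRank (rk M) := by
  refine ⟨?_, ?_, ?_⟩
  · intro A B hAB
    have h1 : M.eRk (up M A) ≤ M.eRk (up M B) := M.eRk_mono (Set.image_mono (by exact_mod_cast hAB))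
    rw [← rk_coe, ← rk_coe] at h1
    exact_mod_cast h1
  · intro A
    have h1 := M.eRk_le_encard (up M A)
    rw [up_encard, ← rk_coe] at h1
    exact_mod_cast h1
  · intro A B
    have h1 := M.eRk_inter_add_eRk_union_le (up M A) (up M B)
    have e1 : up M A ∩ up M B = up M (A ∩ B) := by
      unfold up
      rw [Finset.coe_inter, Set.image_inter Subtype.val_injective]
    have e2 : up M A ∪ up M B = up M (A ∪ B) := by
      unfold up
      rw [Finset.coe_union, Set.image_union]
    rw [e1, e2, ← rk_coe, ← rk_coe, ← rk_coe, ← rk_coe] at h1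
    have h2 : rk M (A ∩ B) + rk M (A ∪ B) ≤ rk M A + rk M B := by exact_mod_cast h1
    omega

theorem rk_univ (M : Matroid α) [Fintype ↥M.E] : ((rk M Finset.univ : ℕ) : ℕ∞) = M.eRank := by
  rw [rk_coe]
  unfold up
  rw [Finset.coe_univ, Set.image_univ, Subtype.range_val, M.eRk_ground]

theorem isBase_iff (M : Matroid α) [Fintype ↥M.E] (A : Finset ↥M.E) :
    IsBase (rk M) A ↔ M.IsBase (up M A) := by
  constructor
  · rintro ⟨h1, h2⟩
    have hI : M.Indep (up M A) := by
      rw [Matroid.indep_iff_eRk_eq_encard_of_finite (up_finite M A), up_encard, ← rk_coe, h1, h2]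
    obtain ⟨B, hB, hAB⟩ := hI.exists_isBase_superset
    have h3 := hB.encard_eq_eRank
    rw [← rk_univ, ← h2, ← up_encard] at h3
    have h4 := (up_finite M A).eq_of_subset_of_encard_le hAB h3.le
    rw [h4]
    exact hB
  · intro hB
    have h1 := hB.encard_eq_eRank
    have h2 := hB.eRk_eq_eRank
    rw [← rk_coe, ← rk_univ] at h2
    rw [up_encard, ← rk_univ] at h1
    exact ⟨by exact_mod_cast h2, by exact_mod_cast h1⟩

theorem baseDist_up (M : Matroid α) (A B : Finset ↥M.E) :
    baseDist (up M A) (up M B) + A.card + B.card = 2 * (A ∪ B).card := by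
  unfold baseDist up
  rw [← Set.image_symmDiff Subtype.val_injective, Set.ncard_image_of_injective _
    Subtype.val_injective, ← Finset.coe_symmDiff, Set.ncard_coe_finset]
  have h1 : (symmDiff A B).card = (A \ B).card + (B \ A).card := by
    rw [Finset.symmDiff_def]
    apply Finset.card_union_of_disjoint
    rw [Finset.disjoint_left]
    intro x hx hx'
    rw [Finset.mem_sdiff] at hx hx'
    exact hx.2 hx'.1
  have h2 := Finset.card_inter_add_card_sdiff A B
  have h3 := Finset.card_inter_add_card_sdiff B A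
  have h4 := Finset.card_union_add_card_inter A B
  rw [Finset.inter_comm] at h3
  omega

/-- the finset of elements of the ground set lying in `B` -/
def down (M : Matroid α) [Fintype ↥M.E] (B : Set α) [DecidablePred (· ∈ B)] : Finset ↥M.E :=
  Finset.univ.filter (fun x => x.1 ∈ B)

theorem up_down (M : Matroid α) [Fintype ↥M.E] {B : Set α} [DecidablePred (· ∈ B)] (hB : B ⊆ M.E) :
    up M (down M B) = B := by
  ext x
  simp only [up, down, Set.mem_image, Finset.coe_filter, Finset.mem_univ, true_and,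
    Set.mem_ofPred_eq, Subtype.exists, exists_and_right, exists_eq_right]
  constructor
  · rintro ⟨_, h⟩; exact h
  · intro h; exact ⟨hB h, h⟩

theorem exists_u (M : Matroid α) [M.Finite] [Fintype ↥M.E] :
    ∃ u, (∀ A A', IsBase (rk M) A → IsBase (rk M) A' → (A ∪ A').card ≤ u) ∧
      (∃ A A', IsBase (rk M) A ∧ IsBase (rk M) A' ∧ (A ∪ A').card = u) ∧
      (∀ A A', IsBase (rk M) A → IsBase (rk M) A' →
        ((A ∪ A').card = u ↔ baseDist (up M A) (up M A') = diam (bases M))) := by
  classical
  obtain ⟨B0, hB0⟩ := M.exists_isBase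
  obtain ⟨h1, B, hB, B', hB', hd⟩ := diam_spec M (F := bases M) (le_refl _) ⟨B0, hB0⟩
  have hB : M.IsBase B := hB
  have hB' : M.IsBase B' := hB'
  have e1 := up_down M hB.subset_ground
  have e2 := up_down M hB'.subset_ground
  have b1 : IsBase (rk M) (down M B) := by rw [isBase_iff, e1]; exact hB
  have b2 : IsBase (rk M) (down M B') := by rw [isBase_iff, e2]; exact hB'
  have h2 := baseDist_up M (down M B) (down M B')
  rw [e1, e2, b1.2, b2.2, hd] at h2
  have key : ∀ A A', IsBase (rk M) A → IsBase (rk M) A' →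
      baseDist (up M A) (up M A') + rk M Finset.univ + rk M Finset.univ = 2 * (A ∪ A').card ∧
      baseDist (up M A) (up M A') ≤ diam (bases M) := by
    intro A A' hA hA'
    have h3 := baseDist_up M A A'
    rw [hA.2, hA'.2] at h3
    exact ⟨h3, h1 _ ((isBase_iff M A).1 hA) _ ((isBase_iff M A').1 hA')⟩
  refine ⟨(down M B ∪ down M B').card, ?_, ⟨_, _, b1, b2, rfl⟩, ?_⟩
  · intro A A' hA hA'
    have := key A A' hA hA'
    omega
  · intro A A' hA hA'
    have := key A A' hA hA'
    omega

theorem col_of_good (M : Matroid α) [M.Finite] [Fintype ↥M.E] {u t : ℕ}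
    (hu : ∀ A A', IsBase (rk M) A → IsBase (rk M) A' →
        ((A ∪ A').card = u ↔ baseDist (up M A) (up M A') = diam (bases M)))
    (hg : Good (rk M) u t) : Col M t := by
  classical
  obtain ⟨c, hc1, hc2⟩ := hg
  refine ⟨fun B => c (down M B), ?_, ?_⟩
  · intro B hB
    apply hc1
    rw [isBase_iff, up_down M hB.subset_ground]
    exact hB
  · intro B B' hB hB' hd
    have e1 := up_down M hB.subset_ground
    have e2 := up_down M hB'.subset_ground
    have b1 : IsBase (rk M) (down M B) := by rw [isBase_iff, e1]; exact hB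
    have b2 : IsBase (rk M) (down M B') := by rw [isBase_iff, e2]; exact hB'
    apply hc2 _ _ b1 b2
    rw [hu _ _ b1 b2, e1, e2]
    exact hd

end transfer

section sum

theorem baseDist_sum {S T : Set (α ⊕ β)} (hS : S.Finite) (hT : T.Finite) :
    baseDist S T = baseDist (Sum.inl ⁻¹' S) (Sum.inl ⁻¹' T) +
      baseDist (Sum.inr ⁻¹' S) (Sum.inr ⁻¹' T) := by
  unfold baseDist
  have hf : (symmDiff S T).Finite := by
    apply (hS.union hT).subset
    rintro x (⟨h, -⟩ | ⟨h, -⟩)
    · exact Or.inl h
    · exact Or.inr h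
  have e1 : symmDiff S T = Sum.inl '' (symmDiff (Sum.inl ⁻¹' S) (Sum.inl ⁻¹' T)) ∪
      Sum.inr '' (symmDiff (Sum.inr ⁻¹' S) (Sum.inr ⁻¹' T)) := by
    ext x
    rcases x with x | x <;> simp [Set.mem_symmDiff]
  have hf1 := hf
  rw [e1] at hf1
  rw [e1, Set.ncard_union_eq ?_ (hf1.subset Set.subset_union_left)
    (hf1.subset Set.subset_union_right), Set.ncard_image_of_injective _ Sum.inl_injective,
    Set.ncard_image_of_injective _ Sum.inr_injective]
  rw [Set.disjoint_left]
  rintro x ⟨y, -, rfl⟩ ⟨z, -, hz⟩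
  exact absurd hz (by simp)

theorem sum_finite (M : Matroid α) (N : Matroid β) [M.Finite] [N.Finite] : (M.sum N).Finite := by
  constructor
  rw [Matroid.sum_ground]
  exact (M.ground_finite.image _).union (N.ground_finite.image _)

theorem base_sum {M : Matroid α} {N : Matroid β} {A : Set α} {B : Set β} (hA : M.IsBase A)
    (hB : N.IsBase B) : (M.sum N).IsBase (Sum.inl '' A ∪ Sum.inr '' B) := by
  rw [Matroid.sum_isBase_iff]
  have e1 : Sum.inl ⁻¹' (Sum.inl '' A ∪ Sum.inr '' B : Set (α ⊕ β)) = A := by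
    ext x; simp
  have e2 : Sum.inr ⁻¹' (Sum.inl '' A ∪ Sum.inr '' B : Set (α ⊕ β)) = B := by
    ext x; simp
  rw [e1, e2]
  exact ⟨hA, hB⟩

theorem baseDist_sum' (A A' : Set α) (B B' : Set β) (hA : A.Finite) (hA' : A'.Finite)
    (hB : B.Finite) (hB' : B'.Finite) :
    baseDist (Sum.inl '' A ∪ Sum.inr '' B) (Sum.inl '' A' ∪ Sum.inr '' B') =
      baseDist A A' + baseDist B B' := by
  rw [baseDist_sum ((hA.image _).union (hB.image _)) ((hA'.image _).union (hB'.image _))]
  have e1 : ∀ (A : Set α) (B : Set β),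
      Sum.inl ⁻¹' (Sum.inl '' A ∪ Sum.inr '' B : Set (α ⊕ β)) = A := by
    intro A B; ext x; simp
  have e2 : ∀ (A : Set α) (B : Set β),
      Sum.inr ⁻¹' (Sum.inl '' A ∪ Sum.inr '' B : Set (α ⊕ β)) = B := by
    intro A B; ext x; simp
  rw [e1, e1, e2, e2]

theorem diam_sum (M : Matroid α) (N : Matroid β) [M.Finite] [N.Finite] :
    diam (bases (M.sum N)) = diam (bases M) + diam (bases N) := by
  have := sum_finite M N
  obtain ⟨B0, hB0⟩ := M.exists_isBase
  obtain ⟨C0, hC0⟩ := N.exists_isBase
  obtain ⟨h1, B, hB, B', hB', hd⟩ := diam_spec M (F := bases M) (le_refl _) ⟨B0, hB0⟩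
  obtain ⟨k1, C, hC, C', hC', kd⟩ := diam_spec N (F := bases N) (le_refl _) ⟨C0, hC0⟩
  obtain ⟨l1, D, hD, D', hD', ld⟩ := diam_spec (M.sum N) (F := bases (M.sum N)) (le_refl _)
    ⟨_, base_sum hB0 hC0⟩
  have hB : M.IsBase B := hB
  have hB' : M.IsBase B' := hB'
  have hC : N.IsBase C := hC
  have hC' : N.IsBase C' := hC'
  have hD : (M.sum N).IsBase D := hD
  have hD' : (M.sum N).IsBase D' := hD'
  apply le_antisymm
  · rw [← ld, baseDist_sum (Set.Finite.subset (M.sum N).ground_finite hD.subset_ground)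
      (Set.Finite.subset (M.sum N).ground_finite hD'.subset_ground)]
    rw [Matroid.sum_isBase_iff] at hD hD'
    exact add_le_add (h1 _ hD.1 _ hD'.1) (k1 _ hD.2 _ hD'.2)
  · rw [← hd, ← kd, ← baseDist_sum' B B' C C'
      (M.ground_finite.subset hB.subset_ground) (M.ground_finite.subset hB'.subset_ground)
      (N.ground_finite.subset hC.subset_ground) (N.ground_finite.subset hC'.subset_ground)]
    exact l1 _ (base_sum hB hC) _ (base_sum hB' hC')

theorem col_sum (M : Matroid α) (N : Matroid β) [M.Finite] [N.Finite] (t : ℕ) :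
    Col (M.sum N) t ↔ Col M t ∨ Col N t := by
  classical
  have := sum_finite M N
  have hfin : ∀ D, (M.sum N).IsBase D → D.Finite := fun D hD =>
    Set.Finite.subset (M.sum N).ground_finite hD.subset_ground
  constructor
  · rintro ⟨c, hc1, hc2⟩
    have : Fintype ↥M.E := M.ground_finite.fintype
    have : Fintype ↥N.E := N.ground_finite.fintype
    obtain ⟨u, hu1, hu2, hu3⟩ := exists_u M
    obtain ⟨v, hv1, hv2, hv3⟩ := exists_u N
    rcases main_abs (rk_isRank M) (rk_isRank N) u v t hu1 hu2 hv1 hv2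
      (fun A B => c (Sum.inl '' (up M A) ∪ Sum.inr '' (up N B)))
      (fun A B hA hB => hc1 _ (base_sum ((isBase_iff M A).1 hA) ((isBase_iff N B).1 hB)))
      (fun A A' B B' hA hA' hB hB' hAA hBB => by
        apply hc2 _ _ (base_sum ((isBase_iff M A).1 hA) ((isBase_iff N B).1 hB))
          (base_sum ((isBase_iff M A').1 hA') ((isBase_iff N B').1 hB'))
        rw [baseDist_sum' _ _ _ _ (up_finite M A) (up_finite M A') (up_finite N B)
          (up_finite N B'), diam_sum, (hu3 A A' hA hA').1 hAA, (hv3 B B' hB hB').1 hBB]) with h | h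
    · exact Or.inl (col_of_good M hu3 h)
    · exact Or.inr (col_of_good N hv3 h)
  · rintro (⟨c, hc1, hc2⟩ | ⟨c, hc1, hc2⟩)
    · refine ⟨fun D => c (Sum.inl ⁻¹' D), ?_, ?_⟩
      · intro D hD
        rw [Matroid.sum_isBase_iff] at hD
        exact hc1 _ hD.1
      · intro D D' hD hD' hd
        rw [baseDist_sum (hfin D hD) (hfin D' hD'), diam_sum] at hd
        rw [Matroid.sum_isBase_iff] at hD hD'
        have h1 := (diam_spec M (F := bases M) (le_refl _) ⟨_, hD.1⟩).1 _ hD.1 _ hD'.1
        have h2 := (diam_spec N (F := bases N) (le_refl _) ⟨_, hD.2⟩).1 _ hD.2 _ hD'.2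
        exact hc2 _ _ hD.1 hD'.1 (by omega)
    · refine ⟨fun D => c (Sum.inr ⁻¹' D), ?_, ?_⟩
      · intro D hD
        rw [Matroid.sum_isBase_iff] at hD
        exact hc1 _ hD.2
      · intro D D' hD hD' hd
        rw [baseDist_sum (hfin D hD) (hfin D' hD'), diam_sum] at hd
        rw [Matroid.sum_isBase_iff] at hD hD'
        have h1 := (diam_spec M (F := bases M) (le_refl _) ⟨_, hD.1⟩).1 _ hD.1 _ hD'.1
        have h2 := (diam_spec N (F := bases N) (le_refl _) ⟨_, hD.2⟩).1 _ hD.2 _ hD'.2
        exact hc2 _ _ hD.2 hD'.2 (by omega)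

end sum

/-- **The Borsuk number of a direct sum of matroids is the minimum of the two Borsuk numbers.** -/
theorem BorsukDirectSum.result (M : Matroid α) (N : Matroid β) [M.Finite] [N.Finite] :
    borsukNumber (M.sum N) = min (borsukNumber M) (borsukNumber N) := by
  have := sum_finite M N
  have key : ∀ t : ℕ, borsukNumber (M.sum N) ≤ t ↔ min (borsukNumber M) (borsukNumber N) ≤ t := by
    intro t
    rw [borsuk_le_iff, min_le_iff, borsuk_le_iff, borsuk_le_iff, col_sum]
  have gen : ∀ x m : ℕ∞, (∀ t : ℕ, x ≤ t → m ≤ t) → m ≤ x := by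
    intro x m h
    cases x using ENat.recTopCoe with
    | top => exact le_top
    | coe n => exact h n le_rfl
  exact le_antisymm (gen _ _ fun t => (key t).2) (gen _ _ fun t => (key t).1)

end Pool.Agent.Results.MP_12cbfc_co
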